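import Pool.Agent.Run7.h575.HF.A5

set_option autoImplicit false

open scoped Manifold ContDiff Topology
open Set Filter

namespace Pool.Agent.Results.MP_0a0487_an.HomogeneousFoliationCovered

open Pool.Agent.H721R2 Pool.Agent.H789R2.AN

/-- The stable leaf of `x` for the map `f`: the points whose forward orbit is asymptotic to that of
`x`. -/
def leaf {M : Type*} [TopologicalSpace M] (f : M → M) (x : M) : Set M :=
  {y | Tendsto (fun n : ℕ => (f^[n] x, f^[n] y)) atTop (𝓝ˢ (diagonal M))}

/-- The orbit of `z` under the group of all the homeomorphisms of `M` that map every stable leaf of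
`f` onto a stable leaf of `f`. -/
def leafOrbit {M : Type*} [TopologicalSpace M] (f : M → M) (z : M) : Set M :=
  {y | ∃ φ : M ≃ₜ M, (∀ a b, b ∈ leaf f a ↔ φ b ∈ leaf f (φ a)) ∧ φ z = y}

/-- `R` is nonempty, closed, invariant under `f` (`f x ∈ R ↔ x ∈ R`) and a union of stable leaves
of `f`. -/
def Saturated {M : Type*} [TopologicalSpace M] (f : M → M) (R : Set M) : Prop :=
  IsClosed R ∧ R.Nonempty ∧ (∀ x, f x ∈ R ↔ x ∈ R) ∧ ∀ x ∈ R, leaf f x ⊆ R

/-- `R` is a minimal nonempty closed invariant union of stable leaves of `f`.  (There are such sets;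
if `f` is a topologically transitive Anosov diffeomorphism then `R = M` is the only one.) -/
def MinimalSaturated {M : Type*} [TopologicalSpace M] (f : M → M) (R : Set M) : Prop :=
  Saturated f R ∧ ∀ R', Saturated f R' → R' ⊆ R → R' = R

/-- **Anosov diffeomorphisms with a topologically homogeneous foliation: coverings.**
Let `f` be a `C¹` Anosov diffeomorphism of a closed connected manifold `M` modelled on the
finite-dimensional space `E`, and `g = f` or `g = f⁻¹`.  Let `H` be the group of all the
homeomorphisms of `M` that map the stable leaves of `g` (the stable leaves of `f` if `g = f`, the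
unstable leaves of `f` if `g = f⁻¹`) onto stable leaves of `g`; they need not be related to `f` in
any other way, nor to the other foliation.  Suppose that

* no orbit of `H` is meagre (for instance, `H` acts transitively on `M`), or
* `f` is topologically transitive and at least one orbit of `H` is not meagre, or
* for some minimal nonempty closed invariant union `R` of stable leaves of `g`, the orbit under `H`
  of at least one point of `R` is not meagre (this follows from each of the first two conditions).

Then there is a surjective covering map `E → M`, where `E ≅ ℝⁿ`, `n = dim M`. -/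
theorem result (E : Type*) [NormedAddCommGroup E] [NormedSpace ℝ E] [FiniteDimensional ℝ E]
    (M : Type*) [TopologicalSpace M] [T2Space M] [CompactSpace M] [ConnectedSpace M]
    [ChartedSpace E M] [IsManifold 𝓘(ℝ, E) ∞ M] (f : Diffeomorph 𝓘(ℝ, E) 𝓘(ℝ, E) M M 1)
    (Es Eu : ∀ x : M, Submodule ℝ (TangentSpace 𝓘(ℝ, E) x)) (hA : IsAnosov f Es Eu)
    (g : M ≃ₜ M) (hg : g = f.toHomeomorph ∨ g = f.toHomeomorph.symm)
    (h : (∀ z, ¬ IsMeagre (leafOrbit g z)) ∨
      (TopTransitive f ∧ ∃ z, ¬ IsMeagre (leafOrbit g z)) ∨
      ∃ R, MinimalSaturated g R ∧ ∃ z ∈ R, ¬ IsMeagre (leafOrbit g z)) :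
    ∃ π : E → M, IsCoveringMap π ∧ Function.Surjective π := by
  obtain ⟨𝒰₀, h1, h2⟩ := Run7.h575.HF.man_fol f Es Eu hA
  obtain ⟨-, h3, h4⟩ := h2 𝒰₀ h1 Subset.rfl g hg
  exact (h4 (h3 h)).2.2.1

end Pool.Agent.Results.MP_0a0487_an.HomogeneousFoliationCovered
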