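import Pool.Agent.Run7.h105.AN.Meas

/-!
# MP_0a0487_an: Anosov diffeomorphisms that preserve an infinite measure, with bounded distortion

The starting theorem `MP_0a0487_an.PeriodicDistortionCovered` says that a closed manifold `M` with a `C²`
Anosov diffeomorphism `f` with bundles of rank at least two is covered by Euclidean space if the return
maps at the periodic points have bounded distortion on one bundle, and all points are nonwandering or
all return maps expand, or all contract, volume weakly. Helper742 proved
(`MP_610fe3_an.InfiniteInvariantMeasure`) that `f` is transitive if it preserves a measure, possibly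
infinite on all open sets that meet some closed set, which is comparable to Lebesgue measure near
some point of each unstable leaf; and that it is enough to know the determinants of the return maps at
the periodic points in an open set that meets all unstable leaves. Here both are put together to a
case of Q1.
-/

set_option autoImplicit false

open scoped Manifold ContDiff Topology Bundle ENNReal
open Set Filter Bundle MeasureTheory

namespace Pool.Agent.Results.MP_0a0487_an.InfiniteMeasureCovered

open Pool.Agent.H721R2 Pool.Agent.H789R2.AN Pool.Agent.H779R2.An Pool.Agent.H779R2.To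
  Pool.Agent.H779R2.Nu
open Run7.h105.AN (PeriodicDistortion PreservesMeasure LocalDeterminants transitive nonwandering)

/-- **Anosov diffeomorphisms that preserve an infinite measure, with bounded distortion.**
Let `f` be a `C²` Anosov diffeomorphism of a closed connected smooth manifold `M`, with splitting
`TM = Es ⊕ Eu` of ranks `ds, du ≥ 2`.  Suppose that

* the return maps `D(fᵏ)(p)`, `fᵏ(p) = p`, have uniformly bounded distortion on ONE of the two
  bundles (`PeriodicDistortion`); nothing is assumed on the other bundle; and
* `f` preserves a Borel measure of `M`, of finite or infinite mass, such that every unstable leaf (or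
  every stable leaf) contains a point near which it is comparable to Lebesgue measure
  (`PreservesMeasure`); or there is an open set that meets every unstable leaf such that
  `|det D(fᵏ)(p)| ≥ 1` at the periodic points in this set, or one that meets every stable leaf such
  that `|det D(fᵏ)(p)| ≤ 1` at the periodic points in it (`LocalDeterminants`).

Then `M` is covered by Euclidean space, and `f` is topologically transitive. -/
theorem result (E : Type*) [NormedAddCommGroup E] [NormedSpace ℝ E] [FiniteDimensional ℝ E]
    [MeasurableSpace E] [BorelSpace E] (ν : Measure E) [ν.IsAddHaarMeasure]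
    (M : Type*) [TopologicalSpace M] [T2Space M] [CompactSpace M] [ConnectedSpace M]
    [MeasurableSpace M] [BorelSpace M]
    [ChartedSpace E M] [IsManifold 𝓘(ℝ, E) ∞ M] (f : Diffeomorph 𝓘(ℝ, E) 𝓘(ℝ, E) M M 1)
    (hf2 : ContMDiff 𝓘(ℝ, E) 𝓘(ℝ, E) 2 f) (hf2' : ContMDiff 𝓘(ℝ, E) 𝓘(ℝ, E) 2 f.symm)
    (Es Eu : ∀ x : M, Submodule ℝ (TangentSpace 𝓘(ℝ, E) x)) (hA : IsAnosov f Es Eu)
    (N : TangentBundle 𝓘(ℝ, E) M → ℝ) (hN : IsTangentNorm N)
    (ds du : ℕ) (h2s : 2 ≤ ds) (h2u : 2 ≤ du) (hds : ∀ x, Module.finrank ℝ (Es x) = ds)
    (hdu : ∀ x, Module.finrank ℝ (Eu x) = du)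
    (hD : PeriodicDistortion f N Eu ∨ PeriodicDistortion f N Es)
    (hμ : PreservesMeasure ν f f.symm ∨ LocalDeterminants E f f.symm) :
    (∃ q : E → M, IsCoveringMap q ∧ Function.Surjective q) ∧ TopTransitive f := by
  have htr : TopTransitive f := transitive E ν M f hf2 hf2' Es Eu hA hμ
  exact ⟨(Pool.Agent.Y321.PD.main_per E M f hf2 hf2' Es Eu hA N hN ds du h2s h2u hds hdu
    (nonwandering f.toHomeomorph htr) hD).2, htr⟩

end Pool.Agent.Results.MP_0a0487_an.InfiniteMeasureCovered
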