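import Pool.Agent.Run7.h105.AN.Meas
import Pool.Agent.Y331.EP.Trans

/-!
# MP_0a0487_an: Anosov diffeomorphisms that preserve an infinite measure, and their factors

The starting theorem `MP_0a0487_an.HomoclinicSeparationCovered` says that `M` is covered by Euclidean
space if a topologically transitive Anosov diffeomorphism `f` of `M` is semiconjugate, without loss of
entropy, to an Anosov diffeomorphism `g` with global product structure. By a theorem of helper742
(`MP_610fe3_an.InfiniteInvariantMeasure`) it is enough, instead of the transitivity, that `f` is of class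
`C²` and preserves a measure, possibly infinite on all open sets that meet some closed set, which is
comparable to Lebesgue measure near some point of each unstable leaf, or that the return maps of `f` at
the periodic points in an open set that meets all unstable leaves do not contract volume.
-/

set_option autoImplicit false

open scoped Manifold ContDiff Topology
open Set Filter MeasureTheory

namespace Pool.Agent.Results.MP_0a0487_an.InfiniteMeasureEntropy

open Pool.Agent.H721R2 Pool.Agent.H789R2.AN Pool.Agent.TH289 Pool.Agent.TH289.K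
open Pool.Agent.Y331.EP
open Run7.h105.AN (PreservesMeasure LocalDeterminants transitive)

/-- **Infinite invariant measures, entropy and universal covers.**
Let `f` be a `C²` and `g` a `C¹` Anosov diffeomorphism of closed connected manifolds `M`, `M'` modelled on
`E`, `E'`, and let `h : M → M'` be continuous with `h ∘ f = g ∘ h`. Suppose that

* `f` preserves a Borel measure of `M`, of finite or infinite mass, such that every unstable leaf (or
  every stable leaf) contains a point near which it is comparable to Lebesgue measure
  (`PreservesMeasure`); or there is an open set that meets every unstable leaf such that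
  `|det D(fᵏ)(p)| ≥ 1` at the periodic points `p = fᵏ(p)` in this set, or one that meets every stable leaf
  such that `|det D(fᵏ)(p)| ≤ 1` at the periodic points in it (`LocalDeterminants`).

(1) Suppose that `g` has global product structure (`GPS`: each stable path and each unstable path
with the same initial point span a rectangle; for instance `g` is a hyperbolic automorphism of an
infranilmanifold) and that `h` loses no entropy, `h_top(f) ≤ h_top(g, h(M))`; nothing is assumed on the
dimensions, and `h` need not be onto. Then `M` is covered by Euclidean space, `f` is topologically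
transitive and has global product structure, and the fibres of `h` have at most `N` points for some `N`.

(2) Suppose that `f` or `g` has global product structure, that `dim M' ≤ dim M` and that `h` is onto, and
that `h_top(f) ≤ h_top(g)` or, for some `C`, `#Fix(fⁿ) ≤ C #Fix(gⁿ)` for infinitely many `n`. Then `h` is a
covering map with finite fibres and both `M` and `M'` are covered by Euclidean space. -/
theorem result (E : Type*) [NormedAddCommGroup E] [NormedSpace ℝ E] [FiniteDimensional ℝ E]
    [MeasurableSpace E] [BorelSpace E] (ν : Measure E) [ν.IsAddHaarMeasure]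
    (M : Type*) [MetricSpace M] [CompactSpace M] [ConnectedSpace M]
    [MeasurableSpace M] [BorelSpace M]
    [ChartedSpace E M] [IsManifold 𝓘(ℝ, E) ∞ M] (f : Diffeomorph 𝓘(ℝ, E) 𝓘(ℝ, E) M M 1)
    (hf2 : ContMDiff 𝓘(ℝ, E) 𝓘(ℝ, E) 2 f) (hf2' : ContMDiff 𝓘(ℝ, E) 𝓘(ℝ, E) 2 f.symm)
    (Es Eu : ∀ x : M, Submodule ℝ (TangentSpace 𝓘(ℝ, E) x)) (hf : IsAnosov f Es Eu)
    (hμ : PreservesMeasure ν f f.symm ∨ LocalDeterminants E f f.symm)
    (E' : Type*) [NormedAddCommGroup E'] [NormedSpace ℝ E'] [FiniteDimensional ℝ E']
    (M' : Type*) [MetricSpace M'] [CompactSpace M'] [ConnectedSpace M']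
    [ChartedSpace E' M'] [IsManifold 𝓘(ℝ, E') ∞ M'] (g : Diffeomorph 𝓘(ℝ, E') 𝓘(ℝ, E') M' M' 1)
    (Es' Eu' : ∀ x : M', Submodule ℝ (TangentSpace 𝓘(ℝ, E') x)) (hg : IsAnosov g Es' Eu')
    (h : C(M, M')) (hfg : ∀ x, h (f x) = g (h x)) :
    (GPS g.toHomeomorph → Dynamics.coverEntropy f univ ≤ Dynamics.coverEntropy g (range h) →
      (∃ π : E → M, IsCoveringMap π ∧ Function.Surjective π) ∧ TopTransitive f ∧
        GPS f.toHomeomorph ∧ ∃ N : ℕ, ∀ y, (h ⁻¹' {y}).encard ≤ N) ∧
    (GPS f.toHomeomorph ∨ GPS g.toHomeomorph → Module.finrank ℝ E' ≤ Module.finrank ℝ E →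
      Function.Surjective h →
      (Dynamics.coverEntropy f univ ≤ Dynamics.coverEntropy g univ ∨
        (∃ C : ℕ, ∃ᶠ n in atTop, {x | f^[n] x = x}.ncard ≤ C * {y | g^[n] y = y}.ncard)) →
      IsCoveringMap h ∧ (∀ y, (h ⁻¹' {y}).Finite) ∧
        (∃ π : E → M, IsCoveringMap π ∧ Function.Surjective π) ∧
        ∃ π : E' → M', IsCoveringMap π ∧ Function.Surjective π) := by
  have htr : TopTransitive f := transitive E ν M f hf2 hf2' Es Eu hf hμ
  refine ⟨fun hG hyp => ?_, fun hG hdim hs hyp => ?_⟩
  · have key := man_trans f Es Eu hf g Es' Eu' hg hG h h.continuous hfg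
    have k5 := key.out 0 4
    have h5 : TopTransitive f ∧ GPS f.toHomeomorph ∧ ∃ N : ℕ, ∀ y, (h ⁻¹' {y}).encard ≤ N :=
      k5.1 ⟨htr, hyp⟩
    exact ⟨(man_self f Es Eu hf h5.2.1).2, h5⟩
  · have key := man_both' f Es Eu hf g Es' Eu' hg hG hdim h h.continuous hs hfg
    have k1 := key.out 0 5
    have k2 := key.out 1 5
    rcases hyp with h1 | h1
    · exact k1.1 ⟨htr, h1⟩
    · exact k2.1 ⟨htr, h1⟩

end Pool.Agent.Results.MP_0a0487_an.InfiniteMeasureEntropy
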