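import Pool.Agent.Run7.h575.HF.A5

set_option autoImplicit false

open scoped Manifold ContDiff Topology
open Set Filter

namespace Pool.Agent.Results.MP_0a0487_an.SensitiveOrCovered

open Pool.Agent.H721R2 Pool.Agent.H789R2.AN Pool.Agent.Y330.N Pool.Agent.TH289.K

/-- The stable leaf of `x` for the map `f`: the points whose forward orbit is asymptotic to that of
`x`. -/
def leaf {M : Type*} [TopologicalSpace M] (f : M → M) (x : M) : Set M :=
  {y | Tendsto (fun n : ℕ => (f^[n] x, f^[n] y)) atTop (𝓝ˢ (diagonal M))}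

/-- `R` is nonempty, closed, invariant under `f` (`f x ∈ R ↔ x ∈ R`) and a union of stable leaves
of `f`. -/
def Saturated {M : Type*} [TopologicalSpace M] (f : M → M) (R : Set M) : Prop :=
  IsClosed R ∧ R.Nonempty ∧ (∀ x, f x ∈ R ↔ x ∈ R) ∧ ∀ x ∈ R, leaf f x ⊆ R

/-- `R` is a minimal nonempty closed invariant union of stable leaves of `f`.  (There are such sets;
if `f` is a topologically transitive Anosov diffeomorphism then `R = M` is the only one.) -/
def MinimalSaturated {M : Type*} [TopologicalSpace M] (f : M → M) (R : Set M) : Prop :=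
  Saturated f R ∧ ∀ R', Saturated f R' → R' ⊆ R → R' = R

/-- **Anosov diffeomorphisms: either the manifold is covered by Euclidean space or both foliations
are sensitive.**
Let `f` be a `C¹` Anosov diffeomorphism of a closed connected manifold `M` modelled on the
finite-dimensional space `E`.  There is a neighbourhood `𝒰₀` of the diagonal of `M × M` such that the
following holds for every neighbourhood `𝒰` of the diagonal contained in `𝒰₀`.  Either

* there is a surjective covering map `E → M`, where `E ≅ ℝⁿ`, `n = dim M`, or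
* the holonomies of both foliations are sensitive at ALL the points of ALL the minimal nonempty
  closed invariant unions `R` of leaves (at all the points of `M`, if `f` is topologically
  transitive): for `g = f` and for `g = f⁻¹`, for every such set `R` of stable leaves of `g`, every
  `x ∈ R` and all integers `i`, `j` there are a stable path `α` of `g` from `x` and a stable path
  `β` of `g` with `β s` in the unstable leaf of `α s` for all `s` (uniformly in `s`), such that
  `α 0`, `β 0` have level at most `i` and `α 1`, `β 1` have level greater than `j`.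

Here the level of two points `y`, `z` of an unstable leaf of `g` is at most `i` if `g⁻ⁿ y` and
`g⁻ⁿ z` are `𝒰`-close for all integers `n ≥ i` (`ZLevel`; a dynamical version of the logarithm of
their distance in the leaf); so the holonomies along the stable paths from `x` expand arbitrarily
small displacements to arbitrarily large ones. -/
theorem result (E : Type*) [NormedAddCommGroup E] [NormedSpace ℝ E] [FiniteDimensional ℝ E]
    (M : Type*) [TopologicalSpace M] [T2Space M] [CompactSpace M] [ConnectedSpace M]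
    [ChartedSpace E M] [IsManifold 𝓘(ℝ, E) ∞ M] (f : Diffeomorph 𝓘(ℝ, E) 𝓘(ℝ, E) M M 1)
    (Es Eu : ∀ x : M, Submodule ℝ (TangentSpace 𝓘(ℝ, E) x)) (hA : IsAnosov f Es Eu) :
    ∃ 𝒰₀ ∈ 𝓝ˢ (diagonal M), ∀ 𝒰 ∈ 𝓝ˢ (diagonal M), 𝒰 ⊆ 𝒰₀ →
      (∃ π : E → M, IsCoveringMap π ∧ Function.Surjective π) ∨
      ∀ g : M ≃ₜ M, (g = f.toHomeomorph ∨ g = f.toHomeomorph.symm) →
        ∀ R, MinimalSaturated g R → ∀ x ∈ R, ∀ i j : ℤ, ∃ α β : C(unitInterval, M),
          α 0 = x ∧ StablePath g α ∧ StablePath g β ∧ UnstablyRelated g α β ∧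
          ZLevel g 𝒰 i (α 0) (β 0) ∧ ¬ ZLevel g 𝒰 j (α 1) (β 1) := by
  obtain ⟨𝒰₀, h1, h2⟩ := Run7.h575.HF.man_fol f Es Eu hA
  refine ⟨𝒰₀, h1, fun 𝒰 h𝒰 hsub => or_iff_not_imp_left.2 fun hcov g hg R hR x hx i j => ?_⟩
  obtain ⟨h3, -, h4⟩ := h2 𝒰 h𝒰 hsub g hg
  have h5 : (∃ R, Run7.h575.HF.MinSatur g R ∧ ∃ x ∈ R, ∃ j, Run7.h575.HF.StableAt g 𝒰 j x) →
    BoundedHolonomy g 𝒰 := (h3.out 2 0).1
  by_contra hcon
  push Not at hcon
  exact hcov (h4 (h5 ⟨R, hR, x, hx, j, i, fun α β a1 a2 a3 a4 a5 =>
    hcon α β a1 a2 a3 a4 a5⟩)).2.2.1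

end Pool.Agent.Results.MP_0a0487_an.SensitiveOrCovered
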